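import Pool.Agent.U753.MY.Stm
import Pool.Agent.U753.MX.Dual

/-!
# Project MY: duality for translation invariant interactions
-/

set_option autoImplicit false

open scoped BigOperators Matrix ComplexOrder
open scoped Matrix.Norms.L2Operator

noncomputable section

namespace Pool.Agent.U753.MY

open Pool.Agent.TH235.PP (BoxOp TorOp Site term ham sh ham_herm)
open Pool.Agent.U753.MK (vnE norm_hamT term')
open Pool.Agent.U753.MX

/-- Translation invariant operators on the torus. -/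
def IsTI {d m : ℕ} (ρ : TorOp d m) : Prop :=
  ∀ (a : Site m) (s t : Site m → Fin d), ρ (fun v => s (v + a)) (fun v => t (v + a)) = ρ s t

lemma ham_addL {d b m : ℕ} [NeZero m] (h1 h2 : BoxOp d b) :
    ham (h1 + h2) m = ham h1 m + ham h2 m := by
  unfold ham
  rw [← Finset.sum_add_distrib]
  exact Finset.sum_congr rfl fun u _ => term_addL h1 h2 u

lemma ham_smulL {d b m : ℕ} [NeZero m] (c : ℂ) (h : BoxOp d b) :
    ham (c • h) m = c • ham h m := by
  unfold ham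
  rw [Finset.smul_sum]
  exact Finset.sum_congr rfl fun u _ => Pool.Agent.N712.TP.term_smul c h u

/-- optimality of a minimiser -/
lemma opt_abs (hVA : StmVA) {n : Type} [Fintype n] [DecidableEq n] [Nonempty n]
    (K K' : Matrix n n ℂ) (hK : K.IsHermitian) (hK' : K'.IsHermitian) (e e' : ℝ)
    (h : ∀ t : ℝ, 0 ≤ t → t ≤ 1 → Real.log (part K) + e ≤
      Real.log (part (K + (t : ℂ) • (K' + ((-1 : ℝ) : ℂ) • K))) + (e + t * (e' - e))) :
    (gibbs K * K').trace.re - e' ≤ (gibbs K * K).trace.re - e := by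
  obtain ⟨V, hV⟩ : ∃ V, V = K' + ((-1 : ℝ) : ℂ) • K := ⟨_, rfl⟩
  rw [← hV] at h
  have hVh : V.IsHermitian := by
    rw [hV]; exact hK'.add (Pool.Agent.N692.TP.herm_smul hK _)
  have htr : (gibbs K * V).trace.re = (gibbs K * K').trace.re - (gibbs K * K).trace.re := by
    rw [hV, mul_add, Matrix.trace_add, Matrix.mul_smul, Matrix.trace_smul, smul_eq_mul,
      Complex.add_re, Complex.re_ofReal_mul]
    ring
  by_contra hcon
  push Not at hcon
  obtain ⟨y, hy⟩ : ∃ y, y = (gibbs K * V).trace.re - (e' - e) := ⟨_, rfl⟩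
  have hy0 : 0 < y := by rw [hy, htr]; linarith
  obtain ⟨t, ht0, ht1, ht2, ht3⟩ : ∃ t : ℝ, 0 < t ∧ t ≤ 1 ∧ t * ‖V‖ ≤ 1 ∧ t * ‖V‖ ^ 2 < y := by
    have hv := norm_nonneg V
    refine ⟨min 1 (min (1 / (‖V‖ + 1)) (y / (2 * (‖V‖ ^ 2 + 1)))), ?_, min_le_left _ _, ?_, ?_⟩
    · exact lt_min one_pos (lt_min (by positivity) (by positivity))
    · have h1 : min 1 (min (1 / (‖V‖ + 1)) (y / (2 * (‖V‖ ^ 2 + 1)))) ≤ 1 / (‖V‖ + 1) :=
        (min_le_right _ _).trans (min_le_left _ _)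
      refine (mul_le_mul_of_nonneg_right h1 hv).trans ?_
      rw [one_div, inv_mul_le_iff₀ (by positivity)]
      linarith
    · have h1 : min 1 (min (1 / (‖V‖ + 1)) (y / (2 * (‖V‖ ^ 2 + 1)))) ≤
          y / (2 * (‖V‖ ^ 2 + 1)) := (min_le_right _ _).trans (min_le_right _ _)
      refine (mul_le_mul_of_nonneg_right h1 (sq_nonneg _)).trans_lt ?_
      rw [div_mul_eq_mul_div, div_lt_iff₀ (by positivity)]
      nlinarith [sq_nonneg ‖V‖]
  have h1 := h t ht0.le ht1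
  have h2 := hVA _ K V hK hVh t ht0.le ht2
  have h4 : t * y ≤ t ^ 2 * ‖V‖ ^ 2 := by
    have e1 : t * y = t * (gibbs K * V).trace.re - t * (e' - e) := by
      rw [hy]
      ring
    rw [e1]
    linarith
  have h5 : t * (t * ‖V‖ ^ 2) < t * y := mul_lt_mul_of_pos_left ht3 ht0
  have h6 : t * (t * ‖V‖ ^ 2) = t ^ 2 * ‖V‖ ^ 2 := by ring
  linarith

variable {d b m : ℕ} [NeZero m]

lemma norm_ham' (hd : 0 < d) (hbm : b ≤ m) (h : BoxOp d b) : ‖ham h m‖ ≤ (m : ℝ) ^ 2 * ‖h‖ :=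
  norm_hamT h fun u => (term' d b m hd hbm u).2.2.1 h

/-- the set of the differences -/
def avset (m : ℕ) [NeZero m] (ρ : TorOp d m) (ω : BoxOp d b) : Set ℝ :=
  {x | ∃ h : BoxOp d b, h.IsHermitian ∧ ‖h‖ ≤ 1 ∧
    x = (ρ * ham h m).trace.re / (m : ℝ) ^ 2 - (ω * h).trace.re}

lemma canc1 (p x y : ℝ) (hp : 0 < p) : p * (x / p - y) = x - p * y := by
  field_simp

lemma canc2 (J p a δ : ℝ) (hJ : 0 < J) (hp : 0 < p) :
    J * p * (a - δ / (J * p)) = p * (J * a) - δ := by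
  field_simp

lemma canc3 (J p x y : ℝ) (hp : 0 < p) : J * p * (x / p - y) = J * x - p * (J * y) := by
  field_simp

lemma m_sq_pos : (0 : ℝ) < (m : ℝ) ^ 2 := by
  have : (0 : ℝ) < m := by exact_mod_cast Nat.pos_of_ne_zero (NeZero.ne m)
  positivity

lemma avset_ne (ρ : TorOp d m) (ω : BoxOp d b) : (avset m ρ ω).Nonempty :=
  ⟨_, 0, Matrix.isHermitian_zero, by rw [norm_zero]; exact zero_le_one, rfl⟩

lemma avset_bdd (hBD : StmBD) (hd : 0 < d) (hbm : b ≤ m) (ρ : TorOp d m) (hρ : ρ.PosSemidef)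
    (hρ1 : ρ.trace = 1) (ω : BoxOp d b) (hω : ω.PosSemidef) (hω1 : ω.trace = 1) :
    BddAbove (avset m ρ ω) := by
  refine ⟨2, ?_⟩
  rintro x ⟨h, h1, h2, rfl⟩
  have h3 := (hBD _ ρ (ham h m) hρ hρ1 (ham_herm h h1)).trans (norm_ham' hd hbm h)
  have h4 := (abs_le.1 ((hBD _ ω h hω hω1 h1).trans h2)).1
  have h5 := (abs_le.1 h3).2
  have hm := m_sq_pos (m := m)
  have h6 : (ρ * ham h m).trace.re / (m : ℝ) ^ 2 ≤ 1 := by
    rw [div_le_one hm]
    exact h5.trans (mul_le_of_le_one_right hm.le h2)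
  linarith

lemma le_avDist (hBD : StmBD) (hd : 0 < d) (hbm : b ≤ m) (ρ : TorOp d m) (hρ : ρ.PosSemidef)
    (hρ1 : ρ.trace = 1) (ω : BoxOp d b) (hω : ω.PosSemidef) (hω1 : ω.trace = 1) (h : BoxOp d b)
    (hh : h.IsHermitian) {J : ℝ} (hJ : 0 < J) (hn : ‖h‖ ≤ J) :
    (ρ * ham h m).trace.re - (m : ℝ) ^ 2 * (ω * h).trace.re ≤
      (m : ℝ) ^ 2 * (J * avDist m ρ ω) := by
  have hm := m_sq_pos (m := m)
  have h1 : J⁻¹ * ((ρ * ham h m).trace.re / (m : ℝ) ^ 2 - (ω * h).trace.re) ∈ avset m ρ ω := by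
    refine ⟨((J⁻¹ : ℝ) : ℂ) • h, Pool.Agent.N692.TP.herm_smul hh _, ?_, ?_⟩
    · rw [norm_smul, Complex.norm_real, Real.norm_eq_abs,
        abs_of_pos (inv_pos.2 hJ), inv_mul_le_iff₀ hJ, mul_one]
      exact hn
    · rw [ham_smulL, Matrix.mul_smul, Matrix.trace_smul, smul_eq_mul, Complex.re_ofReal_mul,
        Matrix.mul_smul, Matrix.trace_smul, smul_eq_mul, Complex.re_ofReal_mul]
      ring
  have h2 := le_csSup (avset_bdd hBD hd hbm ρ hρ hρ1 ω hω hω1) h1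
  rw [inv_mul_le_iff₀ hJ] at h2
  have h3 := mul_le_mul_of_nonneg_left h2 hm.le
  have h4 : (m : ℝ) ^ 2 * ((ρ * ham h m).trace.re / (m : ℝ) ^ 2 - (ω * h).trace.re) =
      (ρ * ham h m).trace.re - (m : ℝ) ^ 2 * (ω * h).trace.re := canc1 _ _ _ hm
  rw [h4] at h3
  exact h3

lemma near_avDist (ρ : TorOp d m) (ω : BoxOp d b) {J δ : ℝ} (hJ : 0 < J) (hδ : 0 < δ) :
    ∃ h : BoxOp d b, h.IsHermitian ∧ ‖h‖ ≤ J ∧
      (m : ℝ) ^ 2 * (J * avDist m ρ ω) - δ ≤
        (ρ * ham h m).trace.re - (m : ℝ) ^ 2 * (ω * h).trace.re := by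
  have hm := m_sq_pos (m := m)
  have h1 : avDist m ρ ω - δ / (J * (m : ℝ) ^ 2) < sSup (avset m ρ ω) := by
    have : 0 < δ / (J * (m : ℝ) ^ 2) := by positivity
    have e : sSup (avset m ρ ω) = avDist m ρ ω := rfl
    rw [e]
    linarith
  obtain ⟨x, ⟨h, h2, h3, rfl⟩, h4⟩ := exists_lt_of_lt_csSup (avset_ne ρ ω) h1
  refine ⟨((J : ℝ) : ℂ) • h, Pool.Agent.N692.TP.herm_smul h2 _, ?_, ?_⟩
  · rw [norm_smul, Complex.norm_real, Real.norm_eq_abs, abs_of_pos hJ]
    exact mul_le_of_le_one_right hJ.le h3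
  · rw [ham_smulL, Matrix.mul_smul, Matrix.trace_smul, smul_eq_mul, Complex.re_ofReal_mul,
        Matrix.mul_smul, Matrix.trace_smul, smul_eq_mul, Complex.re_ofReal_mul]
    have h5 := mul_le_mul_of_nonneg_left h4.le (show 0 ≤ J * (m : ℝ) ^ 2 by positivity)
    have h6 : J * (m : ℝ) ^ 2 * (avDist m ρ ω - δ / (J * (m : ℝ) ^ 2)) =
        (m : ℝ) ^ 2 * (J * avDist m ρ ω) - δ := canc2 _ _ _ _ hJ hm
    have h7 : J * (m : ℝ) ^ 2 * ((ρ * ham h m).trace.re / (m : ℝ) ^ 2 - (ω * h).trace.re) =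
        J * (ρ * ham h m).trace.re - (m : ℝ) ^ 2 * (J * (ω * h).trace.re) := canc3 _ _ _ _ hm
    rw [h6, h7] at h5
    exact h5

/-- **Duality**, translation invariant case. -/
theorem dual2 (hGV : StmGV) (hGE : StmGE) (hVA : StmVA) (hBD : StmBD) (hMI : StmMI2)
    (hTS : StmTS) (hd : 0 < d) (hbm : b ≤ m) (ω : BoxOp d b) (hω : ω.PosSemidef)
    (hω1 : ω.trace = 1) (J κ : ℝ) (hJ : 0 < J) :
    (∃ h : BoxOp d b, h.IsHermitian ∧ ‖h‖ ≤ J ∧ relT m ω h ≤ κ * (m : ℝ) ^ 2) ↔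
      ∀ ρ : TorOp d m, ρ.PosSemidef → ρ.trace = 1 → IsTI ρ →
        vnE ρ ≤ (m : ℝ) ^ 2 * (κ + J * avDist m ρ ω) := by
  have : Nonempty (Site m → Fin d) := ⟨fun _ => ⟨0, hd⟩⟩
  constructor
  · rintro ⟨h, hh, hn, hrel⟩ ρ hρ hρ1 -
    have h1 := hGV _ ρ (ham h m) hρ hρ1 (ham_herm h hh)
    have h2 := le_avDist hBD hd hbm ρ hρ hρ1 ω hω hω1 h hh hJ hn
    unfold relT at hrel
    have h3 : (m : ℝ) ^ 2 * (κ + J * avDist m ρ ω) =
      κ * (m : ℝ) ^ 2 + (m : ℝ) ^ 2 * (J * avDist m ρ ω) := by ring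
    rw [h3]
    linarith
  · intro hdual
    obtain ⟨h, hh, hn, hmin⟩ := hMI d b m hd ω J hJ.le
    refine ⟨h, hh, hn, ?_⟩
    obtain ⟨K, hK⟩ : ∃ K : TorOp d m, K = ham h m := ⟨_, rfl⟩
    have hKh : K.IsHermitian := by rw [hK]; exact ham_herm h hh
    obtain ⟨-, g2, g3, g4⟩ := hGE _ K hKh
    have h1 := hdual (gibbs K) g2 g3 (by rw [hK]; exact hTS d b m h)
    have h2 : (m : ℝ) ^ 2 * (J * avDist m (gibbs K) ω) ≤
        (gibbs K * K).trace.re - (m : ℝ) ^ 2 * (ω * h).trace.re := by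
      refine le_of_forall_pos_le_add fun δ hδ => ?_
      obtain ⟨h', k1, k2, k3⟩ := near_avDist (gibbs K) ω hJ hδ
      have h4 := opt_abs hVA K (ham h' m) hKh (ham_herm h' k1) ((m : ℝ) ^ 2 * (ω * h).trace.re)
        ((m : ℝ) ^ 2 * (ω * h').trace.re) (by
          intro t ht0 ht1
          have q1 := hmin (((1 - t : ℝ) : ℂ) • h + ((t : ℝ) : ℂ) • h')
            ((Pool.Agent.N692.TP.herm_smul hh _).add (Pool.Agent.N692.TP.herm_smul k1 _)) (by
              refine (norm_add_le _ _).trans ?_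
              rw [norm_smul, norm_smul, Complex.norm_real, Complex.norm_real, Real.norm_eq_abs,
                Real.norm_eq_abs, abs_of_nonneg (by linarith), abs_of_nonneg ht0]
              have e1 := mul_le_mul_of_nonneg_left hn (show 0 ≤ 1 - t by linarith)
              have e2 := mul_le_mul_of_nonneg_left k2 ht0
              have e3 : (1 - t) * J + t * J = J := by ring
              linarith)
          unfold relT at q1
          have q2 : ham (((1 - t : ℝ) : ℂ) • h + ((t : ℝ) : ℂ) • h') m =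
              K + (t : ℂ) • (ham h' m + ((-1 : ℝ) : ℂ) • K) := by
            rw [ham_addL, ham_smulL, ham_smulL, ← hK, smul_add, smul_smul]
            push_cast
            rw [sub_smul, one_smul]
            have : (t : ℂ) * (-1) = -(t : ℂ) := by ring
            rw [this, neg_smul]
            abel
          have q3 : (ω * (((1 - t : ℝ) : ℂ) • h + ((t : ℝ) : ℂ) • h')).trace.re =
              (1 - t) * (ω * h).trace.re + t * (ω * h').trace.re := by
            rw [mul_add, Matrix.trace_add, Matrix.mul_smul, Matrix.mul_smul, Matrix.trace_smul,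
              Matrix.trace_smul, smul_eq_mul, smul_eq_mul, Complex.add_re, Complex.re_ofReal_mul,
              Complex.re_ofReal_mul]
          rw [q2, q3, ← hK] at q1
          have q4 : (m : ℝ) ^ 2 * ((1 - t) * (ω * h).trace.re + t * (ω * h').trace.re) =
              (m : ℝ) ^ 2 * (ω * h).trace.re +
                t * ((m : ℝ) ^ 2 * (ω * h').trace.re - (m : ℝ) ^ 2 * (ω * h).trace.re) := by ring
          rw [q4] at q1
          exact q1)
      linarith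
    unfold relT
    rw [← hK]
    have h3 : (m : ℝ) ^ 2 * (κ + J * avDist m (gibbs K) ω) =
      κ * (m : ℝ) ^ 2 + (m : ℝ) ^ 2 * (J * avDist m (gibbs K) ω) := by ring
    rw [h3] at h1
    linarith

end Pool.Agent.U753.MY
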