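import Pool.Agent.U753.MY.Dual

/-!
# Project MY: families
-/

set_option autoImplicit false

open scoped BigOperators ComplexConjugate Classical InnerProductSpace Matrix ComplexOrder
open scoped Matrix.Norms.L2Operator

noncomputable section

namespace Pool.Agent.U753.MY

open Pool.Agent.Y738.PE Pool.Agent.N658.TP Pool.Agent.TH235
open Pool.Agent.U753.MX (StmGV StmGE StmVA StmBD)

/-- One scale. -/
theorem oneScale (hGV : StmGV) (hGE : StmGE) (hVA : StmVA) (hBD : StmBD) (hMI : StmMI2)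
    (hTS : StmTS) (hLG : StmLG) (d : ℕ) (hd : 2 ≤ d) (R : Finset (ℤ × ℤ)) : ∃ C : ℝ, 0 < C ∧
    ∀ ε : ℝ, 0 < ε → ε ≤ 1 → ∀ b : ℕ, 1 ≤ b → ∀ (n L : ℕ) [NeZero L] [NeZero (2 * n)],
    2 * n ≤ L → ∀ J : ℝ, 1 ≤ J → C * b * J / ε ≤ ((2 * n : ℕ) : ℝ) →
    ∀ Ψ : Conf d L → ℂ, nrm Ψ = 1 → TransInv Ψ → ∀ κ : ℝ, 0 ≤ κ →
    (∀ ρ : PP.TorOp d (2 * n), ρ.PosSemidef → ρ.trace = 1 → IsTI ρ →
      Pool.Agent.U753.MK.vnE ρ ≤ ((2 * n : ℕ) : ℝ) ^ 2 * (κ + J * avDist (2 * n) ρ (rdm Ψ b))) →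
    ∃ (D : ℕ) (A : Tensor d D),
      (D : ℝ) ≤ Real.exp (C * (b : ℝ) ^ 24 * (J + κ / ε + Real.log ((2 * n : ℕ) : ℝ))) ∧
      ∀ (L' : ℕ) [NeZero L'], C * ((2 * n : ℕ) : ℝ) ^ 4 ≤ L' →
        nrm (pepsX A L') ≠ 0 ∧ Close R Ψ (pepsX A L') ε := by
  obtain ⟨C, hC, H⟩ := hLG d hd R
  refine ⟨C + 1, by linarith, ?_⟩
  intro ε hε hε1 b hb n L _ _ hnL J hJ hCm Ψ hΨ hTI κ hκ hρ
  have hb1 : (1 : ℝ) ≤ b := by exact_mod_cast hb
  have hbJ : (b : ℝ) ≤ b * J / ε := by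
    rw [le_div_iff₀ hε]
    have h1 : (b : ℝ) * ε ≤ b * 1 := mul_le_mul_of_nonneg_left hε1 (by linarith)
    have h2 : (b : ℝ) * 1 ≤ b * J := mul_le_mul_of_nonneg_left hJ (by linarith)
    linarith
  have hbJ0 : 0 ≤ (b : ℝ) * J / ε := by linarith
  have e1 : (C + 1) * b * J / ε = C * b * J / ε + b * J / ε := by ring
  have e2 : 0 ≤ C * b * J / ε := by positivity
  rw [e1] at hCm
  have hbm : b ≤ 2 * n := by
    have : (b : ℝ) ≤ ((2 * n : ℕ) : ℝ) := by linarith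
    exact_mod_cast this
  obtain ⟨hω, hω1, -, -, hex⟩ := Pool.Agent.N346.TP.Rdm.rdmMain d L b (hbm.trans hnL) Ψ hΨ
  obtain ⟨h, hh, hn, hrel⟩ := (dual2 (m := 2 * n) hGV hGE hVA hBD hMI hTS (by omega) hbm
    (rdm Ψ b) hω hω1 J κ (by linarith)).2 hρ
  have h8 : expec Ψ 0 (fun x y => h x y) = (rdm Ψ b * h).trace := by
    rw [hex]
    rw [Matrix.trace, Finset.sum_comm]
    refine Finset.sum_congr rfl fun y _ => ?_
    rw [Matrix.diag_apply, Matrix.mul_apply]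
    refine Finset.sum_congr rfl fun z _ => ?_
    ring
  unfold relT Pool.Agent.U753.MX.part at hrel
  rw [← h8] at hrel
  obtain ⟨D, A, hD, hA⟩ := H ε hε hε1 b hb n L hnL J hJ (by linarith) Ψ hΨ hTI κ hκ h hh hn hrel
  have hm1 : (1 : ℝ) ≤ ((2 * n : ℕ) : ℝ) := by
    have := Nat.one_le_iff_ne_zero.2 (NeZero.ne (2 * n))
    exact_mod_cast this
  refine ⟨D, A, hD.trans (Real.exp_le_exp.2 ?_), fun L' _ hL' => hA L' ?_⟩
  · have h3 : 0 ≤ J + κ / ε + Real.log ((2 * n : ℕ) : ℝ) := by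
      have := Real.log_nonneg hm1
      positivity
    refine mul_le_mul_of_nonneg_right (mul_le_mul_of_nonneg_right (by linarith) ?_) h3
    positivity
  · refine le_trans ?_ hL'
    exact mul_le_mul_of_nonneg_right (by linarith) (by positivity)

/-- For every `κ` there is `b ≤ B (log (3 / κ)) ^ j` such that all translation invariant states `ρ` of
the tori of side `m ≥ B (3 / κ) ^ p` have entropy at most
`B m ^ 2 (κ + (log (3 / κ)) ^ i ‖ρ_b - Ψ_b‖₁)`, `ρ_b` and `Ψ_b` the reduced states of `ρ` and of `Ψ L`, `L`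
large, on a box of side `b`. -/
def LowEntropy {d : ℕ} (Ψ : ∀ L : ℕ, Conf d L → ℂ) (j i p : ℕ) (B : ℝ) : Prop :=
  ∀ κ : ℝ, 0 < κ → κ ≤ 1 → ∃ b : ℕ, 1 ≤ b ∧ (b : ℝ) ≤ B * Real.log (3 / κ) ^ j ∧
    ∀ (m : ℕ) [NeZero m], B * (3 / κ) ^ p ≤ m → ∃ L₂ : ℕ, ∀ (L : ℕ) [NeZero L], L₂ ≤ L →
      ∀ ρ : PP.TorOp d m, ρ.PosSemidef → ρ.trace = 1 → IsTI ρ →
        Pool.Agent.U753.MK.vnE ρ ≤ B * (m : ℝ) ^ 2 *
          (κ + Real.log (3 / κ) ^ i * avDist m ρ (rdm (Ψ L) b))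

/-- Families. -/
theorem famLow (hGV : StmGV) (hGE : StmGE) (hVA : StmVA) (hBD : StmBD) (hMI : StmMI2)
    (hTS : StmTS) (hLG : StmLG) (d : ℕ) (hd : 2 ≤ d) (R : Finset (ℤ × ℤ)) (j i p : ℕ)
    (hi : 1 ≤ i) (B : ℝ) (hB : 0 < B) : ∃ C : ℝ, 0 < C ∧ ∀ Ψ : ∀ L : ℕ, Conf d L → ℂ,
    (∃ L₁ : ℕ, ∀ (L : ℕ) [NeZero L], L₁ ≤ L → nrm (Ψ L) = 1 ∧ TransInv (Ψ L)) →
    A2.Conv R Ψ → LowEntropy Ψ j i p B → ∀ ε : ℝ, 0 < ε → ε ≤ 1 →
    ∃ (D : ℕ) (A : Tensor d D),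
      (D : ℝ) ≤ Real.exp (C * Real.log (3 / ε) ^ (24 * j + i)) ∧
      ∃ L₃ : ℕ, ∀ (L : ℕ) [NeZero L], L₃ ≤ L →
        nrm (pepsX A L) ≠ 0 ∧ Close R (Ψ L) (pepsX A L) ε := by
  obtain ⟨C, hC, H⟩ := oneScale hGV hGE hVA hBD hMI hTS hLG d hd R
  obtain ⟨A0, hA0⟩ : ∃ A0 : ℝ, A0 = 2 * C * B * (B + 1) + B + B + 1 := ⟨_, rfl⟩
  have hA01 : 1 ≤ A0 := by
    rw [hA0]
    have : 0 ≤ 2 * C * B * (B + 1) := by positivity
    linarith
  obtain ⟨P, hP⟩ : ∃ P : ℕ, P = i + j + 1 + p := ⟨_, rfl⟩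
  have hlA : 0 ≤ Real.log (2 * A0) := Real.log_nonneg (by linarith)
  refine ⟨C * B ^ 24 * (B + 1 + 2 * B + Real.log (2 * A0) + P), by positivity, ?_⟩
  intro Ψ hΨ hconv hlow ε hε hε1
  obtain ⟨L₁, hL₁⟩ := hΨ
  obtain ⟨b, hb, hbl, hm⟩ := hlow ε hε hε1
  obtain ⟨l, hl⟩ : ∃ l : ℝ, l = Real.log (3 / ε) := ⟨_, rfl⟩
  obtain ⟨x, hx⟩ : ∃ x : ℝ, x = 3 / ε := ⟨_, rfl⟩
  have hx3 : 3 ≤ x := by
    rw [hx, le_div_iff₀ hε]
    linarith
  have hl1 : 1 ≤ l := by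
    rw [hl, ← hx]
    refine (Real.le_log_iff_exp_le (by linarith)).2 ?_
    have := Real.exp_one_lt_d9
    linarith
  have hlx : l ≤ x := by
    rw [hl, ← hx]
    have := Real.log_le_sub_one_of_pos (show 0 < x by linarith)
    linarith
  rw [← hl] at hbl hm ⊢
  have hli : 1 ≤ l ^ i := one_le_pow₀ hl1
  have hlj : 1 ≤ l ^ j := one_le_pow₀ hl1
  have hlli : l ≤ l ^ i := le_self_pow₀ hl1 (by omega)
  have hε2 : 0 < ε / 2 := by linarith
  obtain ⟨J, hJ⟩ : ∃ J : ℝ, J = B * l ^ i + 1 := ⟨_, rfl⟩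
  have hBl : 0 ≤ B * l ^ i := by positivity
  have hJ1 : 1 ≤ J := by rw [hJ]; linarith
  have hJl : J ≤ (B + 1) * l ^ i := by
    rw [hJ]
    have : (B + 1) * l ^ i = B * l ^ i + l ^ i := by ring
    linarith
  -- the side
  obtain ⟨X, hX⟩ : ∃ X : ℝ, X = C * b * J / (ε / 2) + B * x ^ p + b := ⟨_, rfl⟩
  have hb1 : (1 : ℝ) ≤ b := by exact_mod_cast hb
  have X1 : 0 ≤ C * b * J / (ε / 2) := by positivity
  have X2 : 0 ≤ B * x ^ p := by positivity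
  have hX1 : 1 ≤ X := by rw [hX]; linarith
  obtain ⟨n, hn⟩ : ∃ n : ℕ, n = ⌈X⌉₊ := ⟨_, rfl⟩
  have hXn : X ≤ n := by rw [hn]; exact Nat.le_ceil _
  have hnX : (n : ℝ) ≤ X + 1 := by rw [hn]; exact (Nat.ceil_lt_add_one (by linarith)).le
  have hn0 : 0 < n := by
    have : (0 : ℝ) < n := by linarith
    exact_mod_cast this
  have hNZ : NeZero (2 * n) := ⟨by omega⟩
  have hmm : ((2 * n : ℕ) : ℝ) = 2 * n := by push_cast; ring
  obtain ⟨L₂, hL₂⟩ := hm (2 * n) (by rw [← hx, hmm]; linarith)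
  refine Pool.Agent.N658.TP.Sp.fam d R Ψ hconv _ ε hε
    ⟨max (max L₁ L₂) (2 * n), fun L _ hL => ?_⟩
  have hLa : L₁ ≤ L := ((le_max_left _ _).trans (le_max_left _ _)).trans hL
  have hLb : L₂ ≤ L := ((le_max_right _ _).trans (le_max_left _ _)).trans hL
  have hLc : 2 * n ≤ L := (le_max_right _ _).trans hL
  have hbm : b ≤ 2 * n := by
    have : (b : ℝ) ≤ ((2 * n : ℕ) : ℝ) := by rw [hmm]; linarith
    exact_mod_cast this
  obtain ⟨D, A, hD, hA⟩ := H (ε / 2) hε2 (by linarith) b hb n L hLc J hJ1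
    (by rw [hmm]; linarith) (Ψ L) (hL₁ L hLa).1 (hL₁ L hLa).2 (B * ε) (by positivity) (by
      intro ρ h1 h2 h3
      refine (hL₂ L hLb ρ h1 h2 h3).trans ?_
      have hav : 0 ≤ avDist (2 * n) ρ (rdm (Ψ L) b) := by
        obtain ⟨hω, hω1, -, -, -⟩ := Pool.Agent.N346.TP.Rdm.rdmMain d L b (hbm.trans hLc) (Ψ L)
          (hL₁ L hLa).1
        refine le_csSup (avset_bdd hBD (by omega) hbm ρ h1 h2 _ hω hω1) ?_
        refine ⟨0, Matrix.isHermitian_zero, by rw [norm_zero]; exact zero_le_one, ?_⟩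
        have h0 : PP.ham (0 : PP.BoxOp d b) (2 * n) = 0 := by
          unfold PP.ham
          exact Finset.sum_eq_zero fun u _ => Pool.Agent.U753.MX.term_zero u
        rw [h0, mul_zero, mul_zero, Matrix.trace_zero, Matrix.trace_zero]
        simp
      obtain ⟨y, hy⟩ : ∃ y, y = avDist (2 * n) ρ (rdm (Ψ L) b) := ⟨_, rfl⟩
      rw [← hy] at hav ⊢
      obtain ⟨q, hq⟩ : ∃ q, q = ((2 * n : ℕ) : ℝ) ^ 2 := ⟨_, rfl⟩
      have hq0 : 0 ≤ q := by rw [hq]; positivity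
      rw [← hq, hJ]
      have e1 : q * (B * ε + (B * l ^ i + 1) * y) = B * q * (ε + l ^ i * y) + q * y := by ring
      have e2 : 0 ≤ q * y := mul_nonneg hq0 hav
      rw [e1]
      linarith)
  refine ⟨D, A, hD.trans (Real.exp_le_exp.2 ?_), ⌈C * ((2 * n : ℕ) : ℝ) ^ 4⌉₊,
    fun L' _ hL' => hA L' ((Nat.le_ceil _).trans (by exact_mod_cast hL'))⟩
  -- the numbers
  have hx1 : 1 ≤ x := by linarith
  have hXA : X + 1 ≤ A0 * x ^ P := by
    have k1 : C * b * J / (ε / 2) ≤ 2 * C * B * (B + 1) * x ^ P := by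
      have e1 : C * b * J / (ε / 2) = 2 * C * (b * J) * (1 / ε) := by
        field_simp
      have e2 : (b : ℝ) * J ≤ (B * l ^ j) * ((B + 1) * l ^ i) :=
        mul_le_mul hbl hJl (by linarith) (by positivity)
      have e3 : (B * l ^ j) * ((B + 1) * l ^ i) = B * (B + 1) * l ^ (i + j) := by
        rw [pow_add]; ring
      have e4 : l ^ (i + j) ≤ x ^ (i + j) := pow_le_pow_left₀ (by linarith) hlx _
      have e5 : 1 / ε ≤ x := by
        rw [hx]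
        exact div_le_div_of_nonneg_right (by norm_num) hε.le
      have e6 : (b : ℝ) * J ≤ B * (B + 1) * x ^ (i + j) := by
        rw [e3] at e2
        exact e2.trans (mul_le_mul_of_nonneg_left e4 (by positivity))
      have e7 : (b * J) * (1 / ε) ≤ (B * (B + 1) * x ^ (i + j)) * x :=
        mul_le_mul e6 e5 (by positivity) (by positivity)
      have e8 : x ^ (i + j) * x ≤ x ^ P := by
        rw [← pow_succ]
        exact pow_le_pow_right₀ hx1 (by omega)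
      have e9 : B * (B + 1) * x ^ (i + j) * x ≤ B * (B + 1) * x ^ P := by
        rw [mul_assoc]
        exact mul_le_mul_of_nonneg_left e8 (by positivity)
      rw [e1]
      have e10 := mul_le_mul_of_nonneg_left (e7.trans e9) (show 0 ≤ 2 * C by positivity)
      calc 2 * C * (b * J) * (1 / ε) = 2 * C * ((b * J) * (1 / ε)) := by ring
        _ ≤ 2 * C * (B * (B + 1) * x ^ P) := e10
        _ = _ := by ring
    have k2 : B * x ^ p ≤ B * x ^ P :=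
      mul_le_mul_of_nonneg_left (pow_le_pow_right₀ hx1 (by omega)) hB.le
    have k3 : (b : ℝ) ≤ B * x ^ P := by
      refine hbl.trans (mul_le_mul_of_nonneg_left ?_ hB.le)
      exact (pow_le_pow_left₀ (by linarith) hlx j).trans (pow_le_pow_right₀ hx1 (by omega))
    have k4 : 1 ≤ x ^ P := one_le_pow₀ hx1
    have k5 : A0 * x ^ P = 2 * C * B * (B + 1) * x ^ P + B * x ^ P + B * x ^ P + x ^ P := by
      rw [hA0]; ring
    rw [k5, hX]
    linarith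
  have hlogm : Real.log ((2 * n : ℕ) : ℝ) ≤ Real.log (2 * A0) + P * l := by
    have e1 : ((2 * n : ℕ) : ℝ) ≤ 2 * A0 * x ^ P := by
      rw [hmm]
      linarith
    have e0 : (0 : ℝ) < ((2 * n : ℕ) : ℝ) := by rw [hmm]; linarith
    refine (Real.log_le_log e0 e1).trans (le_of_eq ?_)
    rw [Real.log_mul (by positivity) (by positivity), Real.log_pow, hl, hx]
  have hκe : B * ε / (ε / 2) = 2 * B := by field_simp
  rw [hκe]
  have hb24 : (b : ℝ) ^ 24 ≤ B ^ 24 * l ^ (24 * j) := by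
    refine (pow_le_pow_left₀ (by linarith) hbl 24).trans (le_of_eq ?_)
    rw [mul_pow, ← pow_mul, mul_comm j 24]
  have hPl : (P : ℝ) * l ≤ P * l ^ i := mul_le_mul_of_nonneg_left hlli (Nat.cast_nonneg P)
  have hS : J + 2 * B + Real.log ((2 * n : ℕ) : ℝ) ≤
      (B + 1 + 2 * B + Real.log (2 * A0) + P) * l ^ i := by
    have e1 : 2 * B ≤ 2 * B * l ^ i := le_mul_of_one_le_right (by linarith) hli
    have e2 : Real.log (2 * A0) ≤ Real.log (2 * A0) * l ^ i := le_mul_of_one_le_right hlA hli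
    have e3 : (B + 1 + 2 * B + Real.log (2 * A0) + P) * l ^ i =
        (B + 1) * l ^ i + 2 * B * l ^ i + Real.log (2 * A0) * l ^ i + P * l ^ i := by ring
    rw [e3]
    linarith
  have hS0 : 0 ≤ (B + 1 + 2 * B + Real.log (2 * A0) + P) * l ^ i := by positivity
  calc C * (b : ℝ) ^ 24 * (J + 2 * B + Real.log ((2 * n : ℕ) : ℝ))
      ≤ C * (b : ℝ) ^ 24 * ((B + 1 + 2 * B + Real.log (2 * A0) + P) * l ^ i) :=
        mul_le_mul_of_nonneg_left hS (by positivity)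
    _ ≤ C * (B ^ 24 * l ^ (24 * j)) * ((B + 1 + 2 * B + Real.log (2 * A0) + P) * l ^ i) :=
        mul_le_mul_of_nonneg_right (mul_le_mul_of_nonneg_left hb24 hC.le) hS0
    _ = _ := by
        rw [pow_add]
        ring

end Pool.Agent.U753.MY
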