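import Pool.Agent.U753.MX.Stm
import Pool.Agent.U753.MK.Mk1

/-!
# Project MY: local PEPS approximation and the maximum entropy principle. Statements
-/

set_option autoImplicit false

open scoped BigOperators ComplexConjugate Classical InnerProductSpace Matrix ComplexOrder
open scoped Matrix.Norms.L2Operator

noncomputable section

namespace Pool.Agent.U753.MY

open Pool.Agent.Y738.PE Pool.Agent.N658.TP Pool.Agent.TH235
open Pool.Agent.U753.MX (part gibbs)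

/-- `log Tr exp (-H) + m² Tr (ω h)`, `H` the sum of the translates of `h` on the `m × m` torus: the
relative entropy of a state on this torus with marginal `ω` on the boxes and entropy zero. -/
def relT {d b : ℕ} (m : ℕ) [NeZero m] (ω h : PP.BoxOp d b) : ℝ :=
  Real.log (part (PP.ham h m)) + (m : ℝ) ^ 2 * (ω * h).trace.re

/-- The trace norm of the difference of `ω` and of the average of the reduced states of `ρ` on all
boxes of side `b`, as the supremum of the differences of the expectations of the Hermitian operators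
of norm at most one. -/
def avDist {d b : ℕ} (m : ℕ) [NeZero m] (ρ : PP.TorOp d m) (ω : PP.BoxOp d b) : ℝ :=
  sSup {x | ∃ h : PP.BoxOp d b, h.IsHermitian ∧ ‖h‖ ≤ 1 ∧
    x = (ρ * PP.ham h m).trace.re / (m : ℝ) ^ 2 - (ω * h).trace.re}

/-- LG. Local approximation from an interaction with small relative entropy. -/
def StmLG : Prop := ∀ d : ℕ, 2 ≤ d → ∀ R : Finset (ℤ × ℤ), ∃ C : ℝ, 0 < C ∧
  ∀ ε : ℝ, 0 < ε → ε ≤ 1 → ∀ b : ℕ, 1 ≤ b → ∀ (n L : ℕ) [NeZero L] [NeZero (2 * n)], 2 * n ≤ L →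
  ∀ J : ℝ, 1 ≤ J → C * b * J / ε ≤ ((2 * n : ℕ) : ℝ) →
  ∀ Ψ : Conf d L → ℂ, nrm Ψ = 1 → TransInv Ψ → ∀ κ : ℝ, 0 ≤ κ →
  ∀ h : PP.BoxOp d b, h.IsHermitian → ‖h‖ ≤ J →
  Real.log (NormedSpace.exp (-PP.ham h (2 * n))).trace.re +
    ((2 * n : ℕ) : ℝ) ^ 2 * (expec Ψ 0 (fun x y => h x y)).re ≤ κ * ((2 * n : ℕ) : ℝ) ^ 2 →
  ∃ (D : ℕ) (A : Tensor d D),
    (D : ℝ) ≤ Real.exp (C * (b : ℝ) ^ 24 * (J + κ / ε + Real.log ((2 * n : ℕ) : ℝ))) ∧
    ∀ (L' : ℕ) [NeZero L'], C * ((2 * n : ℕ) : ℝ) ^ 4 ≤ L' →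
      nrm (pepsX A L') ≠ 0 ∧ Close R Ψ (pepsX A L') ε

/-- MI2. A minimiser. -/
def StmMI2 : Prop := ∀ (d b m : ℕ) [NeZero m], 0 < d → ∀ (ω : PP.BoxOp d b) (J : ℝ), 0 ≤ J →
  ∃ h : PP.BoxOp d b, h.IsHermitian ∧ ‖h‖ ≤ J ∧
    ∀ h' : PP.BoxOp d b, h'.IsHermitian → ‖h'‖ ≤ J → relT m ω h ≤ relT m ω h'

/-- TS. The Gibbs state is translation invariant. -/
def StmTS : Prop := ∀ (d b m : ℕ) [NeZero m] (h : PP.BoxOp d b) (a : PP.Site m)
  (s t : PP.Site m → Fin d), gibbs (PP.ham h m) (fun v => s (v + a)) (fun v => t (v + a)) =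
    gibbs (PP.ham h m) s t

end Pool.Agent.U753.MY
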